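import Pool.Agent.KS6_90.SQG.Main

/-!
# Rotated square boundaries centred at the points of an arbitrary set

Question: is there a compact set containing, for every `x` of `[0,1] × [0,1]`, a square boundary
centred at `x` (of any orientation and size), with lower box dimension or packing dimension less
than `7/4`?  The answer is no.  This file proves more: the set of centres may be any nonempty
subset `S` of the unit square, and the bounds are `1 + 3/8 * dim S`, with the Hausdorff dimension
of `S` for the lower box dimension of `K`, and with the packing dimension of `S` for the packing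
dimension of `K` (here `K` is not assumed compact, closed or bounded).
-/

set_option autoImplicit false

open Pool.Agent.V11202.SQ

namespace Pool.Agent.Results.MP_023cc8_an.GeneralCentres

/-- `K` contains, for every `x` of `S`, some square boundary centred at `x`; the orientation and
the side length may depend on `x` -/
def Centred (S K : Set ℂ) : Prop :=
  ∀ x ∈ S, ∃ r : ℝ, 0 < r ∧ ∃ u : ℂ, ‖u‖ = 1 ∧ squareBoundary x r u ⊆ K

/-- (1) Every admissible compact set has lower box dimension and packing dimension at least `7/4`.
(2) If `S` is a nonempty subset of the unit square and the bounded set `K` contains a square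
boundary centred at every point of `S`, then the lower box dimension of `K` is at least
`1 + 3/8 * s` for every `s` at most the Hausdorff dimension of `S`.
(3) If `S` is a nonempty subset of the unit square and the set `K` contains a square boundary
centred at every point of `S`, then the packing dimension of `K` is at least `1 + 3/8 * s` for every
`s` at most the packing dimension of `S`. -/
theorem result :
    (∀ K : Set ℂ, Admissible K →
      ((7 / 4 : ℝ) : EReal) ≤ lowerBoxDim K ∧ ((7 / 4 : ℝ) : EReal) ≤ packingDim K) ∧
    (∀ (S K : Set ℂ) (s : ℝ), S ⊆ Q → S.Nonempty → Bornology.IsBounded K → Centred S K →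
      ENNReal.ofReal s ≤ dimH S → ((1 + 3 / 8 * s : ℝ) : EReal) ≤ lowerBoxDim K) ∧
    (∀ (S K : Set ℂ) (s : ℝ), S ⊆ Q → S.Nonempty → Centred S K →
      (s : EReal) ≤ packingDim S → ((1 + 3 / 8 * s : ℝ) : EReal) ≤ packingDim K) :=
  ⟨fun _ hK => main hK,
    fun _ _ _ hQ hne hb hK hs => Pool.Agent.KS6_90.SQG.lower hQ hne hb hK hs,
    fun _ _ _ hQ hne hK hs => Pool.Agent.KS6_90.SQG.packing hQ hne hK hs⟩

end Pool.Agent.Results.MP_023cc8_an.GeneralCentres
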